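import Pool.Agent.Q238.LM.Main

/-!
# MP_87e037_al, Q1: nonzero lowering maps exist under condition (*)

For every field `K`, every `d ≥ 1` and every `θ_0, …, θ_d ∈ K` pairwise distinct with the ratio
condition (*), the space `V` of polynomials of degree at most `d` has a nonzero lowering map.
(`tauV`, `rhoV`, `IsLowering` and `StarCond` are defined in `Pool.Agent.Q238.LM.Defs`.)
-/

namespace Pool.Agent.Results.MP_87e037_al.NonzeroLoweringMap

open Polynomial Q238.LM

/-- For every field `K`, every `d ≥ 1` and all pairwise distinct `θ_0, …, θ_d` in `K` satisfying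
(*), there is a nonzero lowering map on the space of polynomials of degree at most `d`. -/
theorem result (K : Type*) [Field K] (d : ℕ) (hd : 1 ≤ d) (θ : ℕ → K)
    (hθ : Set.InjOn θ (Set.Iic d)) (hstar : StarCond θ d) :
    ∃ Ψ : degreeLE K (d : WithBot ℕ) →ₗ[K] degreeLE K (d : WithBot ℕ),
      IsLowering θ d Ψ ∧ Ψ ≠ 0 :=
  exists_lowering θ d hd (fun _ _ hi hj h => hθ hi hj h) hstar

end Pool.Agent.Results.MP_87e037_al.NonzeroLoweringMap
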